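import Pool.Agent.Q195.BL4

set_option autoImplicit false

open Pool.Agent.Q195.BL

namespace Pool.Agent.Results.MP_2139d9_an.NotProjective

universe u

/-- There are two projective Banach lattices with topological order units (namely `ℝ` and `ℓ₁`)
whose `ℓ_∞`-sum (the product with the coordinatewise order and the maximum norm) is not
projective. -/
theorem result : ∃ (P₁ P₂ : Type) (_ : NormedAddCommGroup P₁) (_ : NormedSpace ℝ P₁)
    (_ : Lattice P₁) (_ : IsBanachLattice P₁) (_ : NormedAddCommGroup P₂) (_ : NormedSpace ℝ P₂)
    (_ : Lattice P₂) (_ : IsBanachLattice P₂),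
    Projective.{u, 0} P₁ ∧ HasTopUnit P₁ ∧ Projective.{u, 0} P₂ ∧ HasTopUnit P₂ ∧
      ¬ Projective.{0, 0} (P₁ × P₂) :=
  ⟨ℝ, l1, inferInstance, inferInstance, inferInstance, inferInstance, inferInstance,
    inferInstance, inferInstance, inferInstance, projective_real, hasTopUnit_real,
    projective_l1, l1_like.hasTopUnit, not_projective⟩

end Pool.Agent.Results.MP_2139d9_an.NotProjective
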